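import Pool.Agent.H77.SF.KT

/-! Part K: small elementary embeddings (assembly). -/

open Ordinal Cardinal Order Set
open scoped ZFSet

namespace SF.H77

open SF

theorem diag1 (hKD : T_KD) {κ : Cardinal.{0}} {N : V} {W : Ultrafilter V} (h0 : ℵ₀ < κ)
    (hW : PkU κ N W) (F : V → V) (hF : ∀ x ∈ N, F x ∈ N) :
    ∀ᶠ Y in (W : Filter V), ∀ x ∈ Y, F x ∈ Y := by
  refine (hKD κ N W h0 hW (fun t Y => F (t 0) ∈ Y) fun t ht => hW.fine _ (hF _ (ht 0))).mono ?_
  intro Y hY x hx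
  exact hY (fun _ => x) fun _ => hx

theorem kl (hKA : T_KA) (hKC : T_KC) (hKD : T_KD) (hKE : T_KE) (hKF : T_KF) (hKG : T_KG)
    (hKH : T_KH) (hKI : T_KI) (hKJ : T_KJ) (hKK : T_KK) : T_KL := by
  intro κ hκ a
  have hin := hKI κ hκ
  have h0 : ℵ₀ < κ := hκ.1
  obtain ⟨lam, hlam, hlim, hel⟩ := hKA (max κ.ord a.rank)
  have hkl : κ.ord < lam := lt_of_le_of_lt (le_max_left _ _) hlam
  have hal : a ∈ V_ lam := ZFSet.mem_vonNeumann.2 (lt_of_le_of_lt (le_max_right _ _) hlam)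
  obtain ⟨W, hW⟩ := hKC κ hκ (V_ lam)
  have htr : (V_ lam).IsTransitive := ZFSet.isTransitive_vonNeumann lam
  have hsub : ∀ x ∈ V_ lam, ∀ y, y ⊆ x → y ∈ V_ lam := fun x hx y hy =>
    ZFSet.mem_vonNeumann_of_subset hy hx
  have hord : ∀ α < κ.ord, α.toZFSet ∈ V_ lam := fun α hα =>
    ZFSet.mem_vonNeumann.2 (by rw [Ordinal.rank_toZFSet]; exact hα.trans hkl)
  have e1 := hKE κ _ W h0 hW ⟨a, hal⟩
  have e2 := hKF κ _ W h0 hW htr
  have e3 := hKG κ _ W h0 hW hsub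
  have e4 := diag1 hKD h0 hW (fun x => V_ x.rank) fun x hx =>
    ZFSet.mem_vonNeumann.2 (by rw [ZFSet.rank_vonNeumann]; exact ZFSet.mem_vonNeumann.1 hx)
  have e5 := diag1 hKD h0 hW (fun x => ({x} : V)) fun x hx =>
    ZFSet.mem_vonNeumann.2 (by
      rw [ZFSet.rank_singleton]
      exact hlim.succ_lt (ZFSet.mem_vonNeumann.1 hx))
  have e6 := diag1 hKD h0 hW (fun x => (Order.succ x.rank).toZFSet) fun x hx =>
    ZFSet.mem_vonNeumann.2 (by
      rw [Ordinal.rank_toZFSet]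
      exact hlim.succ_lt (ZFSet.mem_vonNeumann.1 hx))
  have e7 : ∀ᶠ Y in (W : Filter V), ∀ u ∈ Y, ∀ x ∈ Y, u ∈ V_ x.rank →
      ∃ y ∈ Y, y ∈ x ∧ u ⊆ V_ y.rank := by
    refine (hKD κ _ W h0 hW (fun t Y => t 0 ∈ V_ (t 1).rank →
      ∃ y ∈ Y, y ∈ t 1 ∧ t 0 ⊆ V_ y.rank) fun t ht => ?_).mono ?_
    · by_cases hc : t 0 ∈ V_ (t 1).rank
      · have h1 := ZFSet.mem_vonNeumann.1 hc
        obtain ⟨y, hy, hy2⟩ := ZFSet.lt_rank_iff.1 h1
        refine (hW.fine y (htr _ (ht 1) hy)).mono fun Y hY _ => ⟨y, hY, hy, ?_⟩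
        exact ZFSet.subset_vonNeumann.2 hy2
      · exact Filter.Eventually.of_forall fun Y h => absurd h hc
    · intro Y hY u hu x hx
      exact hY (fun i => if i = 0 then u else x) fun i => by
        show (if i = 0 then u else x) ∈ Y
        split_ifs
        · exact hu
        · exact hx
  have e8 := hKK κ _ W hin hW hord
  have e9 := hW.fine _ hal
  have e10 := hW.fine (κ.ord.toZFSet) (ZFSet.mem_vonNeumann.2 (by
    rw [Ordinal.rank_toZFSet]; exact hkl))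
  have e11 := hW.fine (∅ : V) (ZFSet.mem_vonNeumann.2 (by
    rw [ZFSet.rank_empty]; exact hlim.bot_lt))
  obtain ⟨Y, hY⟩ := (e1.and (e2.and (e3.and (e4.and (e5.and (e6.and (e7.and (e8.and (e9.and
    (e10.and (e11.and (hW.small.and hW.sub)))))))))))).exists
  obtain ⟨h1, h2, h3, h4, h5, h6, h7, h8, h9, h10, h11, h12, h13⟩ := hY
  obtain ⟨lam', f, hlim', hf, hran, hcard, hfix⟩ :=
    hKH lam Y hlim h1 ⟨a, h9⟩ h3 (fun x hx => ⟨h4 x hx, h5 x hx⟩) h7
  obtain ⟨k, hk, hklim, hkY, hkV, hkV2⟩ := hKJ κ Y hin h12 h2 h11 (fun x hx => ⟨h4 x hx, h6 x hx⟩)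
  obtain ⟨κ', hκ', hκk⟩ := h8 k hkY
  have hVk : (V_ k).IsTransitive := ZFSet.isTransitive_vonNeumann k
  have hfx : ∀ u ∈ V_ k, u ∈ V_ lam' ∧ app f u = u := hfix _ hVk hkV
  have hinj : ∀ u ∈ V_ lam', ∀ v ∈ V_ lam', app f u = app f v → u = v := by
    intro u hu v hv huv
    have := (hf.el (.eq 0 1) (fun i => if i = 0 then u else v) fun i => by
      show (if i = 0 then u else v) ∈ V_ lam'
      split_ifs
      · exact hu
      · exact hv).2 huv
    exact this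
  have hmem : ∀ u ∈ V_ lam', ∀ v ∈ V_ lam', u ∈ v ↔ app f u ∈ app f v := by
    intro u hu v hv
    have := (hf.el (.mem 0 1) (fun i => if i = 0 then u else v) fun i => by
      show (if i = 0 then u else v) ∈ V_ lam'
      split_ifs
      · exact hu
      · exact hv)
    exact this
  have hback : ∀ x ∈ V_ lam', app f x ∈ V_ κ.ord → x ∈ V_ k := by
    intro x hx hx2
    have hxY : app f x ∈ Y := (hran _).2 ⟨x, hx, rfl⟩
    have h14 := hkV2 _ hxY hx2
    have h15 := hfx _ h14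
    have h16 : app f x = x := hinj _ h15.1 _ hx h15.2
    rw [← h16]
    exact h14
  obtain ⟨c, hc, hcc⟩ := (hran _).1 h10
  have hck : c = k.toZFSet := by
    ext u
    constructor
    · intro hu
      have hu' : u ∈ V_ lam' := ZFSet.isTransitive_vonNeumann lam' c hc hu
      have h17 : app f u ∈ κ.ord.toZFSet := hcc ▸ (hmem u hu' c hc).1 hu
      have h18 : app f u ∈ V_ κ.ord := Ordinal.toZFSet_subset_vonNeumann _ h17
      have h19 := hback u hu' h18
      have h20 := hfx u h19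
      rw [h20.2] at h17
      obtain ⟨α, hα, rfl⟩ := Ordinal.mem_toZFSet_iff.1 h17
      rw [Ordinal.toZFSet_mem_toZFSet_iff]
      have := ZFSet.mem_vonNeumann.1 h19
      rwa [Ordinal.rank_toZFSet] at this
    · intro hu
      obtain ⟨α, hα, rfl⟩ := Ordinal.mem_toZFSet_iff.1 hu
      have h19 : α.toZFSet ∈ V_ k := ZFSet.mem_vonNeumann.2 (by rwa [Ordinal.rank_toZFSet])
      have h20 := hfx _ h19
      refine (hmem _ h20.1 c hc).2 ?_
      rw [h20.2, hcc]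
      exact Ordinal.toZFSet_mem_toZFSet_iff.2 (hα.trans hk)
  subst hκk
  obtain ⟨a', ha', haa⟩ := (hran _).1 h9
  refine ⟨κ', lam', lam, f, ⟨hκ', hin, ?_, hlim', hlim, ?_, ?_, hkl, hel, hf, ?_, ?_, ?_⟩,
    a', ha', haa⟩
  · exact ord_lt_ord.1 hk
  · rw [hck] at hc
    have := ZFSet.mem_vonNeumann.1 hc
    rwa [Ordinal.rank_toZFSet] at this
  · have h21 : lam'.card ≤ (V_ lam').card := Ordinal.card_le_card_vonNeumann lam'
    exact lt_ord.2 (lt_of_le_of_lt (h21.trans hcard.le) h12)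
  · intro x hx
    exact (hfx x hx).2
  · rw [← hck]
    exact hcc
  · exact hback

end SF.H77
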