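import Pool.Agent.H77.SF.KT2

/-! Goodness is reflected along small embeddings. -/

open Ordinal Cardinal Order Set
open scoped ZFSet

namespace SF.H77

open SF

/-- basic facts on a small embedding -/
theorem semb_w1 (hKV : T_KV) {κ' κ : Cardinal.{0}} {lam' lam : Ordinal.{0}} {j : V}
    (hj : SEmb κ' κ lam' lam j) : w1 ∈ V_ κ'.ord := by
  rw [ZFSet.mem_vonNeumann]
  unfold w1
  rw [Ordinal.rank_toZFSet]
  exact (hKV κ' hj.inac').big

theorem semb_sub {κ' κ : Cardinal.{0}} {lam' lam : Ordinal.{0}} {j : V}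
    (hj : SEmb κ' κ lam' lam j) {x : V} (hx : x ∈ V_ κ'.ord) : x ∈ V_ lam' := by
  rw [ZFSet.mem_vonNeumann] at hx ⊢
  exact hx.trans hj.lt'

theorem kxg (hKM : T_KM) (hYC : T_YC) (hYF : T_YF) (hKV : T_KV) (hKPR : T_KPR)
    (hKVB : T_KVB) (hKVC : T_KVC) (hKVD : T_KVD) (hKGA : T_KGA) : T_KXG := by
  intro κ' κ lam' lam j hj A' C' A C h' h hA hg hC hh jA jg jC jh hgood
  obtain ⟨k1, k2, k3, -, -⟩ := hKM κ' κ lam' lam j hj
  have hw : w1 ∈ V_ κ'.ord := semb_w1 hKV hj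
  have hw' : w1 ∈ V_ lam' := semb_sub hj hw
  have jw : app j w1 = w1 := hj.fix w1 hw
  obtain ⟨hga, jga⟩ := hKGA κ' κ lam' lam j hj A' A hg jg
  have hmap : ∀ x ∈ V_ lam', app j x ∈ V_ lam := fun x hx => app_mem hj.el.func hx
  -- GoodS in the universe, in `V_ lam`, in `V_ lam'`
  have g1 : GoodS Al w1 (gaf A) A.B C.B h.gr := ((hYF A C h ∅).2.2.2).1 hgood
  obtain ⟨φ, hφ⟩ := hYC.2.2.2.2
  let v : ℕ → V := fun i => match i with
    | 0 => w1
    | 1 => gaf A'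
    | 2 => A'.B
    | 3 => C'.B
    | _ => h'.gr
  have hv : In (· ∈ V_ lam') v := by
    intro i
    show v i ∈ V_ lam'
    match i with
    | 0 => exact hw'
    | 1 => exact hga
    | 2 => exact hA
    | 3 => exact hC
    | _ + 4 => exact hh
  have hjv : In (· ∈ V_ lam) (fun i => app j (v i)) := fun i => hmap _ (hv i)
  have g2 : GoodS Al (app j (v 0)) (app j (v 1)) (app j (v 2)) (app j (v 3)) (app j (v 4)) := by
    show GoodS Al (app j w1) (app j (gaf A')) (app j A'.B) (app j C'.B) (app j h'.gr)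
    rw [jw, jga, jA, jC, jh]
    exact g1
  have g3 : Sat Al φ (fun i => app j (v i)) := (hφ Al k3.1 _ fun _ => trivial).2 g2
  have g4 : Sat (· ∈ V_ lam) φ (fun i => app j (v i)) := (hj.elV φ _ hjv).2 g3
  have g5 : Sat (· ∈ V_ lam') φ v := (hj.el.el φ v hv).2 g4
  obtain ⟨p', hp', g6⟩ := (hφ _ k1.1 v hv).1 g5
  -- the witness
  refine ⟨p', ?_⟩
  intro F q hq
  have k := k1.1
  -- a transitive set in `V_ lam'` which contains the parameters
  have tp : ∀ x ∈ V_ lam', ∀ y ∈ V_ lam', ({x, y} : V) ∈ V_ lam' := fun x hx y hy =>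
    k.pair x y hx hy
  have tin : ∀ x ∈ V_ lam', ∀ y ∈ V_ lam', insert x y ∈ V_ lam' := by
    intro x hx y hy
    exact (Tm.ins (f := fun _ v => v 0) (g := fun _ v => v 1) (Tm.var 0) (Tm.var 1)).1
      (· ∈ V_ lam') k (fun i => if i = 0 then x else y) (by
        intro i
        by_cases hi : i = 0
        · simp only [hi, if_true]; exact hx
        · simp only [hi, if_false]; exact hy)
  let s : V := insert A'.B (insert C'.B (insert h'.gr {p', w1}))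
  have hs : s ∈ V_ lam' := tin _ hA _ (tin _ hC _ (tin _ hh _ (tp _ hp' _ hw')))
  have ht : tcS s ∈ V_ lam' := (Tm.tcS (Tm.var 0)).1 (· ∈ V_ lam') k (fun _ => s) fun _ => hs
  have hst : ∀ x ∈ s, x ∈ tcS s := fun x hx => tcS_self s hx
  obtain ⟨F0, hF1, hF2, hF3⟩ := hKVB A' C' h' p' F (tcS s) (tcS_isTransitive s)
    (hst _ (by simp [s])) (hst _ (by simp [s])) (hst _ (by simp [s])) (hst _ (by simp [s]))
    (hst _ (by simp [s]))
  refine hF3 q hq ?_
  have hN : F0.N ∈ V_ lam' := hKVC κ' κ lam' lam j hj _ ht F0.N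
    (fun x hx y hy => F0.np.zfc.trans x hx y hy) hF1
  obtain ⟨c1, c2, c3, c4, c5, c6, c7, c8, c9⟩ := hKVD κ' κ lam' lam j hj A' C' h' p' F0 hA hN
  have hq0 : q ∈ F0.N' := by rw [hF2]; exact hq
  obtain ⟨e1, -, e3, -⟩ := hYF A' C' h' p'
  have f1 := e1 F0
  have f2 : FrameS (· ∈ V_ lam') w1 (gaf A') A'.B C'.B h'.gr p' F0.N' F0.N F0.b.val
      (cS F0.N' F0.N F0.σ) F0.w F0.B' F0.C' F0.h' F0.p' F0.G' :=
    { f1 with np := hKPR κ' κ lam' lam j hj _ c1 _ hN f1.np }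
  obtain ⟨c, -, σ', -, hl⟩ := g6 _ c1 _ hN _ c2 _ c3 _ c4 _ c5 _ c6 _ c7 _ c8 _ c9 f2 q hq0
  exact (e3 F0 q hq0).2 ⟨c, σ', hl⟩

end SF.H77
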