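import Pool.Agent.H77.SF.KT2

/-! Reflection at a supercompact cardinal. -/

open Ordinal Cardinal Order Set
open scoped ZFSet

namespace SF.H77

open SF

theorem top_val (B : V) [IsCBA B] : (⊤ : El B).val = (⋃₀ B : ZFSet) := by
  ext z
  rw [ZFSet.mem_sUnion]
  constructor
  · intro hz
    exact ⟨_, (⊤ : El B).mem, hz⟩
  · rintro ⟨x, hx, hz⟩
    exact El.le_iff.1 (le_top : (⟨x, hx⟩ : El B) ≤ ⊤) hz

theorem mor_val {B C : V} [IsCBA B] [IsCBA C] (h : Mor B C) (x : El B) :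
    app h.gr x.val = (h x).val := by
  refine app_eq ?_ ?_
  · intro a b c hb hc
    unfold Mor.gr at hb hc
    rw [ZFSet.mem_range] at hb hc
    obtain ⟨y, hy⟩ := hb
    obtain ⟨z, hz⟩ := hc
    obtain ⟨h1, h2⟩ := ZFSet.pair_inj.1 hy
    obtain ⟨h3, h4⟩ := ZFSet.pair_inj.1 hz
    have : y = z := El.ext (h1.trans h3.symm)
    rw [← h2, ← h4, this]
  · unfold Mor.gr
    rw [ZFSet.mem_range]
    exact ⟨x, rfl⟩

/-- the assignment of a list -/
def asg (l : List V) (d : V) (i : ℕ) : V := l.getD i d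

theorem in_asg {M : V → Prop} {l : List V} {d : V} (hl : ∀ x ∈ l, M x) (hd : M d) :
    ∀ i, M (asg l d i) := by
  intro i
  unfold asg
  rw [List.getD_eq_getElem?_getD]
  cases h : l[i]? with
  | none => exact hd
  | some a => exact hl a (List.mem_of_getElem? h)

section

variable {κ' κ : Cardinal.{0}} {lam' lam : Ordinal.{0}} {j : V}

theorem semb_empty (hj : SEmb κ' κ lam' lam j) : (∅ : V) ∈ V_ lam' := by
  rw [ZFSet.mem_vonNeumann, ZFSet.rank_empty]
  exact hj.lim'.bot_lt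

theorem semb_mem (hj : SEmb κ' κ lam' lam j) {x y : V} (hx : x ∈ V_ lam') (hy : y ∈ V_ lam') :
    app j x ∈ app j y ↔ x ∈ y :=
  (hj.el.el (.mem 0 1) (fun i => if i = 0 then x else y) (by
    intro i
    by_cases hi : i = 0
    · simp only [hi, if_true]; exact hx
    · simp only [hi, if_false]; exact hy)).symm

theorem semb_inj (hj : SEmb κ' κ lam' lam j) {x y : V} (hx : x ∈ V_ lam') (hy : y ∈ V_ lam') :
    app j x = app j y ↔ x = y :=
  (hj.el.el (.eq 0 1) (fun i => if i = 0 then x else y) (by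
    intro i
    by_cases hi : i = 0
    · simp only [hi, if_true]; exact hx
    · simp only [hi, if_false]; exact hy)).symm

theorem tm_kpw {F : (ℕ → V) → V} (h : Tm ZFm (fun _ v => F v)) : Tm KPw (fun _ v => F v) :=
  h.mono fun _ k => k.1

theorem dfb_kpw {R : (ℕ → V) → Prop} (h : Dfb ZFm (fun _ v => R v)) :
    Dfb KPw (fun _ v => R v) :=
  h.mono fun _ k => k.1

theorem semb_fst (hKO : T_KO) (hj : SEmb κ' κ lam' lam j) {x : V} (hx : x ∈ V_ lam') :
    fst x ∈ V_ lam' ∧ app j (fst x) = fst (app j x) :=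
  hKO κ' κ lam' lam j hj (fun v => fst (v 0)) (tm_kpw (Tm.fst (Tm.var 0))) (fun _ => x)
    fun _ => hx

theorem semb_snd (hKO : T_KO) (hj : SEmb κ' κ lam' lam j) {x : V} (hx : x ∈ V_ lam') :
    snd x ∈ V_ lam' ∧ app j (snd x) = snd (app j x) :=
  hKO κ' κ lam' lam j hj (fun v => snd (v 0)) (tm_kpw (Tm.snd (Tm.var 0))) (fun _ => x)
    fun _ => hx

theorem semb_sU (hKO : T_KO) (hj : SEmb κ' κ lam' lam j) {x : V} (hx : x ∈ V_ lam') :
    (⋃₀ x : ZFSet) ∈ V_ lam' ∧ app j (⋃₀ x : ZFSet) = (⋃₀ (app j x) : ZFSet) :=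
  hKO κ' κ lam' lam j hj (fun v => (⋃₀ (v 0) : ZFSet)) (tm_kpw (Tm.sUnion (Tm.var 0)))
    (fun _ => x) fun _ => hx

theorem semb_app (hKO : T_KO) (hj : SEmb κ' κ lam' lam j) {x y : V} (hx : x ∈ V_ lam')
    (hy : y ∈ V_ lam') : app x y ∈ V_ lam' ∧ app j (app x y) = app (app j x) (app j y) :=
  hKO κ' κ lam' lam j hj (fun v => app (v 0) (v 1)) (tm_kpw (Tm.app (Tm.var 0) (Tm.var 1)))
    (fun i => if i = 0 then x else y) (by
    intro i
    by_cases hi : i = 0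
    · simp only [hi, if_true]; exact hx
    · simp only [hi, if_false]; exact hy)

theorem semb_inter (hKO : T_KO) (hj : SEmb κ' κ lam' lam j) {x y : V} (hx : x ∈ V_ lam')
    (hy : y ∈ V_ lam') : x ∩ y ∈ V_ lam' ∧ app j (x ∩ y) = app j x ∩ app j y :=
  hKO κ' κ lam' lam j hj (fun v => v 0 ∩ v 1) (tm_kpw (Tm.inter (Tm.var 0) (Tm.var 1)))
    (fun i => if i = 0 then x else y) (by
    intro i
    by_cases hi : i = 0
    · simp only [hi, if_true]; exact hx
    · simp only [hi, if_false]; exact hy)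

theorem semb_subset (hKN : T_KN) (hj : SEmb κ' κ lam' lam j) {x y : V} (hx : x ∈ V_ lam')
    (hy : y ∈ V_ lam') : x ⊆ y ↔ app j x ⊆ app j y :=
  hKN κ' κ lam' lam j hj (fun v => v 0 ⊆ v 1) (dfb_kpw (Dfb.subset (Tm.var 0) (Tm.var 1)))
    (fun i => if i = 0 then x else y) (by
    intro i
    by_cases hi : i = 0
    · simp only [hi, if_true]; exact hx
    · simp only [hi, if_false]; exact hy)

/-- the projection, as a relation -/
def PrjR (v : ℕ → V) : Prop := v 3 ∈ v 0 ∧ v 2 ⊆ app (v 1) (v 3) ∧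
  ∀ b ∈ v 0, v 2 ⊆ app (v 1) b → v 3 ⊆ b

theorem dfb_prjR : Dfb ZFm (fun _ v => PrjR v) := by
  refine (Dfb.mem (Tm.var 3) (Tm.var 0)).and ((Dfb.subset (Tm.var 2)
    (Tm.app (Tm.var 1) (Tm.var 3))).and ?_)
  exact (Dfb.ball (R := fun _ v => v 3 ⊆ app (v 2) (v 0) → v 4 ⊆ v 0) ktr_zfm (Tm.var 0)
    ((Dfb.subset (Tm.var 3) (Tm.app (Tm.var 2) (Tm.var 0))).imp
      (Dfb.subset (Tm.var 4) (Tm.var 0)))).congr fun M k v hv => Iff.rfl

/-- the supremum of `v 1` is the top of `v 0` -/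
def DnsR (v : ℕ → V) : Prop := ∀ b ∈ v 0, (∀ s ∈ v 1, s ⊆ b) → b = (⋃₀ (v 0) : ZFSet)

theorem dfb_dnsR : Dfb ZFm (fun _ v => DnsR v) := by
  refine (Dfb.ball (R := fun _ v => (∀ s ∈ v 2, s ⊆ v 0) → v 0 = (⋃₀ (v 1) : ZFSet)) ktr_zfm
    (Tm.var 0) (Dfb.imp ?_ (Dfb.eq (Tm.var 0) (Tm.sUnion (Tm.var 1))))).congr
    fun M k v hv => Iff.rfl
  exact (Dfb.ball (R := fun _ v => v 0 ⊆ v 1) ktr_zfm (Tm.var 2)
    (Dfb.subset (Tm.var 0) (Tm.var 1))).congr fun M k v hv => Iff.rfl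

end

theorem prjR_iff (hMP : T_MP) {B C : V} [IsCBA B] [IsCBA C] (k : Mor B C) (hk : k ⊤ = ⊤)
    (x : El C) (b : V) (v : ℕ → V) (h0 : v 0 = B) (h1 : v 1 = k.gr) (h2 : v 2 = x.val)
    (h3 : v 3 = b) : PrjR v ↔ b = (k.proj x).val := by
  obtain ⟨m1, m2, -⟩ := hMP B C k
  have hx : x ≤ k ⊤ := by rw [hk]; exact le_top
  unfold PrjR
  rw [h0, h1, h2, h3]
  constructor
  · rintro ⟨e1, e2, e3⟩
    have e4 : app k.gr b = (k ⟨b, e1⟩).val := mor_val k ⟨b, e1⟩
    rw [e4] at e2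
    refine subset_antisymm ?_ ?_
    · refine e3 _ (k.proj x).mem ?_
      rw [mor_val]
      exact El.le_iff.1 (m2 x hx)
    · exact El.le_iff.1 ((m1 x ⟨b, e1⟩ hx).2 (El.le_iff.2 e2))
  · rintro rfl
    refine ⟨(k.proj x).mem, ?_, ?_⟩
    · rw [mor_val]
      exact El.le_iff.1 (m2 x hx)
    · intro c hc h
      have e4 : app k.gr c = (k ⟨c, hc⟩).val := mor_val k ⟨c, hc⟩
      rw [e4] at h
      exact El.le_iff.1 ((m1 x ⟨c, hc⟩ hx).2 (El.le_iff.2 h))

theorem ra (hKL : T_KL) (hKM : T_KM) (hKN : T_KN) (hKO : T_KO) (hKV : T_KV) (hKZA : T_KZA)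
    (hKZB : T_KZB) (hKXB : T_KXB) (hKXG : T_KXG) (hUB : T_UB) (hMP : T_MP) : T_RA := by
  rintro ⟨κ, hκ⟩
  obtain ⟨_, _, _, _, h0, _⟩ := hKL κ hκ ∅
  refine ⟨κ.ord, hKV κ h0.inac, ?_⟩
  intro Z i hZ C k hk hk1 D hD u hu
  let DD : V := resS w1 fun x => C.B.sep fun z => ∃ d ∈ D x.rank, d.val = z
  let a : V := ZFSet.pair (UU κ.ord) (ZFSet.pair (UL κ.ord) (ZFSet.pair C.B (ZFSet.pair C.g.gr
    (ZFSet.pair k.gr (ZFSet.pair DD u.code)))))
  obtain ⟨κ', lam', lam, j, hj, a', ha', ja⟩ := hKL κ hκ a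
  obtain ⟨m1, j1⟩ := semb_fst hKO hj ha'
  obtain ⟨s1, t1⟩ := semb_snd hKO hj ha'
  rw [ja] at j1 t1
  simp only [a, fst_pair, snd_pair] at j1 t1
  obtain ⟨m2, j2⟩ := semb_fst hKO hj s1
  obtain ⟨s2, t2⟩ := semb_snd hKO hj s1
  rw [t1] at j2 t2
  simp only [fst_pair, snd_pair] at j2 t2
  obtain ⟨m3, j3⟩ := semb_fst hKO hj s2
  obtain ⟨s3, t3⟩ := semb_snd hKO hj s2
  rw [t2] at j3 t3
  simp only [fst_pair, snd_pair] at j3 t3
  obtain ⟨m4, j4⟩ := semb_fst hKO hj s3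
  obtain ⟨s4, t4⟩ := semb_snd hKO hj s3
  rw [t3] at j4 t4
  simp only [fst_pair, snd_pair] at j4 t4
  obtain ⟨m5, j5⟩ := semb_fst hKO hj s4
  obtain ⟨s5, t5⟩ := semb_snd hKO hj s4
  rw [t4] at j5 t5
  simp only [fst_pair, snd_pair] at j5 t5
  obtain ⟨m6, j6⟩ := semb_fst hKO hj s5
  obtain ⟨m7, j7⟩ := semb_snd hKO hj s5
  rw [t5] at j6 j7
  simp only [fst_pair, snd_pair] at j6 j7
  generalize fst a' = uu at *
  generalize snd a' = r1 at *
  generalize fst r1 = ul at *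
  generalize snd r1 = r2 at *
  generalize fst r2 = cB at *
  generalize snd r2 = r3 at *
  generalize fst r3 = cg at *
  generalize snd r3 = r4 at *
  generalize fst r4 = kg at *
  generalize snd r4 = r5 at *
  generalize fst r5 = dd at *
  generalize snd r5 = uc at *
  obtain rfl := (hKZA κ' κ lam' lam j hj).1 uu m1 j1
  obtain rfl := (hKZA κ' κ lam' lam j hj).2 ul m2 j2
  have hI := hKV κ' hj.inac'
  obtain ⟨Z', i', hZ'⟩ := hUB κ'.ord hI
  obtain ⟨z1, z2, z3, z4, z5⟩ := hKZB κ' κ lam' lam j hj m1 j1 m2 j2 Z i Z' i' hZ hZ'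
  obtain ⟨C', rfl, rfl⟩ := (hKXB κ' κ lam' lam j hj).1 C cB m3 cg m4 j3 j4
  obtain ⟨k', rfl⟩ := (hKXB κ' κ lam' lam j hj).2 Z' C' Z C k kg m5 z1 z3 m3 m4 z2 z4 j3 j4 j5
  have hgood : Good k' := hKXG κ' κ lam' lam j hj Z' C' Z C k' k z1 z3 m3 m5 z2 z4 j3 j5 hk
  have k1 := (hKM κ' κ lam' lam j hj).1.1
  have inZ : ∀ x : El Z'.B, x.val ∈ V_ lam' := fun x => k1.trans _ z1 _ x.mem
  have inC : ∀ x : El C'.B, x.val ∈ V_ lam' := fun x => k1.trans _ m3 _ x.mem
  -- the code of the condition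
  have hu' : u.code ∈ V_ κ'.ord := by
    have e1 : uc ∈ V_ κ'.ord := hj.back uc m7 (by rw [j7]; exact hu)
    have e2 := hj.fix uc e1
    rw [j7] at e2
    rw [e2]
    exact e1
  -- the unit
  have hunit : k' ⊤ = ⊤ := by
    apply El.ext
    rw [← semb_inj hj (inC _) (inC _), ← mor_val k'.toMor ⊤, top_val, top_val,
      (semb_app hKO hj m5 (semb_sU hKO hj z1).1).2, (semb_sU hKO hj z1).2, (semb_sU hKO hj m3).2,
      j5, z2, j3, ← top_val, ← top_val, mor_val k.toMor ⊤]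
    exact congrArg El.val hk1
  refine ⟨κ'.ord, Z', C', i', k', fun x => app j x, ?_, hu'⟩
  constructor
  · exact Cardinal.ord_lt_ord.2 hj.lt
  · exact hI
  · exact hZ'
  · rw [ZFSet.mem_vonNeumann] at m3 ⊢
    exact m3.trans hj.ltk
  · exact hgood
  · exact hunit
  · intro x
    constructor
    · rw [← z2]
      exact (semb_mem hj (inZ x) z1).2 x.mem
    · intro y hy
      have e1 : y ∈ V_ κ'.ord := z5 _ x.mem hy
      have e2 : y ∈ V_ lam' := k1.trans _ (inZ x) _ hy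
      have e3 := (semb_mem hj e2 (inZ x)).2 hy
      rwa [hj.fix y e1] at e3
  · intro x
    rw [← j3]
    exact (semb_mem hj (inC x) m3).2 x.mem
  · refine hj.fix ∅ ?_
    rw [ZFSet.mem_vonNeumann, ZFSet.rank_empty]
    exact hI.lim.bot_lt
  · intro x y
    exact (semb_inter hKO hj (inC x) (inC y)).2
  · intro x y hxy
    show app j (k'.f x).val = (k.f y).val
    rw [← mor_val k'.toMor x, (semb_app hKO hj m5 (inZ x)).2, j5, ← hxy, mor_val k.toMor y]
  · intro x y hxy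
    show app j (k'.toMor.proj x).val = (k.toMor.proj y).val
    have e1 : PrjR (asg [Z'.B, k'.gr, x.val, (k'.toMor.proj x).val] ∅) :=
      (prjR_iff hMP k'.toMor hunit x _ _ rfl rfl rfl rfl).2 rfl
    have e2 := (hKN κ' κ lam' lam j hj PrjR (dfb_kpw dfb_prjR) _ (in_asg (by
      intro z hz
      simp only [List.mem_cons, List.not_mem_nil, or_false] at hz
      rcases hz with rfl | rfl | rfl | rfl
      · exact z1
      · exact m5
      · exact inC x
      · exact inZ _) (semb_empty hj))).1 e1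
    exact (prjR_iff hMP k.toMor hk1 y _ _ (by exact z2) (by exact j5) (by exact hxy.symm)
      rfl).1 e2
  · intro n hn
    have n1 : n.toZFSet ∈ w1 := Ordinal.toZFSet_mem_toZFSet_iff.2 hn
    have n2 : n.toZFSet ∈ V_ κ'.ord := by
      rw [ZFSet.mem_vonNeumann, Ordinal.rank_toZFSet]
      exact hn.trans hI.big
    have n3 : n.toZFSet ∈ V_ lam' := by
      rw [ZFSet.mem_vonNeumann] at n2 ⊢
      exact n2.trans hj.lt'
    obtain ⟨d1, d2⟩ := semb_app hKO hj m6 n3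
    rw [j6, hj.fix _ n2] at d2
    have d3 : app DD n.toZFSet = C.B.sep fun z => ∃ d ∈ D n, d.val = z := by
      simp only [DD]
      rw [app_resS n1, Ordinal.rank_toZFSet]
    rw [d3] at d2
    have d4 : app dd n.toZFSet ⊆ C'.B := by
      rw [semb_subset hKN hj d1 m3, d2, j3]
      intro z hz
      exact (ZFSet.mem_sep.1 hz).1
    refine ⟨{d | d.val ∈ app dd n.toZFSet}, ?_, ?_⟩
    · have e1 : DnsR (fun t => app j (asg [C'.B, app dd n.toZFSet] ∅ t)) := by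
        show ∀ b ∈ app j C'.B, (∀ s ∈ app j (app dd n.toZFSet), s ⊆ b) →
          b = (⋃₀ (app j C'.B) : ZFSet)
        rw [j3, d2]
        intro b hb h1
        have h2 : sSup (D n) ≤ (⟨b, hb⟩ : El C.B) := by
          refine sSup_le fun d hd => El.le_iff.2 ?_
          exact h1 d.val (ZFSet.mem_sep.2 ⟨d.mem, d, hd, rfl⟩)
        rw [hD n hn, top_le_iff] at h2
        rw [← top_val, ← h2]
      have e2 := (hKN κ' κ lam' lam j hj DnsR (dfb_kpw dfb_dnsR) _ (in_asg (by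
        intro z hz
        simp only [List.mem_cons, List.not_mem_nil, or_false] at hz
        rcases hz with rfl | rfl
        · exact m3
        · exact d1) (semb_empty hj))).2 e1
      apply El.ext
      rw [top_val]
      refine e2 _ (sSup {d : El C'.B | d.val ∈ app dd n.toZFSet}).mem ?_
      intro s hs
      exact El.le_iff.1 (le_sSup (show (⟨s, d4 hs⟩ : El C'.B) ∈ {d | d.val ∈ app dd n.toZFSet}
        from hs))
    · intro d hd
      have e1 : app j d.val ∈ app j (app dd n.toZFSet) := (semb_mem hj (inC d) d1).2 hd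
      rw [d2] at e1
      obtain ⟨-, e, he, h1⟩ := ZFSet.mem_sep.1 e1
      exact ⟨e, he, h1⟩

end SF.H77
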