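import Pool.Agent.H84.SF.Fin
import Pool.Agent.H18.ND.FCO

/-!
# MP_70ba79_ag, THEOREM S, chapter 14, row FCZ: curves in an affine variety with multiplicities
along the inverse image of the curve
-/

set_option autoImplicit false

namespace Pool.Agent.H77.SF

open MvPolynomial SC
open Pool.Agent.H84.SF
open Pool.Agent.H27.LV (ge deg poleOrder canDeg DegreeBound)
open Pool.Agent.H84.SM (cr dt dp)
open Pool.Agent.H84.SL (pd)
open Pool.Agent.H3.SF (Itg Bb BB Hm eu grd hes Sfc Crd Crf Prm)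
open Pool.Agent.H17.SD (Prj Smo HRel)
open Pool.Agent.H30.AX (PullDiv pull_ord)
open Pool.Agent.H18.ND.F (prod_le)

/-- value of a form at a multiple of a point -/
lemma aeval_smul_hom {τ k L : Type} [Field k] [Field L] [Algebra k L] (P : MvPolynomial τ k)
    (e : ℕ) (hP : P.IsHomogeneous e) (c : L) (x : τ → L) :
    aeval (fun i => c * x i) P = c ^ e * aeval x P := by
  rw [aeval_def, aeval_def, eval₂_eq, eval₂_eq, Finset.mul_sum]
  refine Finset.sum_congr rfl fun m hm => ?_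
  have h1 : ∑ i ∈ m.support, m i = e := by
    have h := hP (mem_support_iff.1 hm)
    rw [Finsupp.weight_apply, Finsupp.sum] at h
    simpa using h
  rw [← h1, ← Finset.prod_pow_eq_pow_sum]
  have h2 : ∏ i ∈ m.support, (c * x i) ^ m i = (∏ i ∈ m.support, c ^ m i) *
      ∏ i ∈ m.support, x i ^ m i := by
    rw [← Finset.prod_mul_distrib]
    exact Finset.prod_congr rfl fun i _ => mul_pow _ _ _
  rw [h2]
  ring

theorem pf_FCZ : T_FCZ := by
  classical
  intro k K τ _ _ _ _ _ _ I G d m hI hG σ P φ r J ε hε hIP hunit S z hPz hreg Z hZ hGz j0 hZ0'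
  have hcomp : ∀ g : MvPolynomial (τ) k, aeval z (aeval φ g) = aeval Z g := fun g => by
    have h : ((aeval z : MvPolynomial σ k →ₐ[k] K).comp (aeval φ)) = aeval Z := by
      refine MvPolynomial.algHom_ext fun i => ?_
      simp [hZ]
    rw [← h]
    rfl
  have hinv : ∀ N : ℕ, ((Z j0)⁻¹) ^ N ≠ 0 := fun N => pow_ne_zero _ (inv_ne_zero hZ0')
  obtain ⟨z', hz'⟩ : ∃ z' : τ → K, z' = fun j => (Z j0)⁻¹ * Z j := ⟨_, rfl⟩
  rw [← hz']
  have hform : ∀ (g : MvPolynomial (τ) k) (N : ℕ), g.IsHomogeneous N →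
      aeval z' g = ((Z j0)⁻¹) ^ N * aeval Z g := fun g N hg => by
    rw [hz']
    exact aeval_smul_hom g N hg _ _
  have hone : z' j0 = 1 := by
    rw [hz']
    exact inv_mul_cancel₀ hZ0'
  have hon : ∀ f ∈ I, aeval z' f = 0 := by
    intro f hf
    rw [← sum_homogeneousComponent f, map_sum]
    refine Finset.sum_eq_zero fun e _ => ?_
    rw [hform _ e (homogeneousComponent_isHomogeneous e f), ← hcomp,
      hPz _ (hIP _ (hI f hf e)), mul_zero]
  refine ⟨hon, ⟨j0, hone⟩, ?_, ?_⟩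
  · rw [hform G d hG]
    exact mul_ne_zero (hinv _) hGz
  intro v hv
  have hzv := hreg v hv
  obtain ⟨j1, hj1, hj1'⟩ := Finset.exists_min_image
    (Finset.univ.filter fun j => Z j ≠ 0) (fun j => v.ord (Z j))
    ⟨j0, Finset.mem_filter.2 ⟨Finset.mem_univ _, hZ0'⟩⟩
  have hj1 : Z j1 ≠ 0 := (Finset.mem_filter.1 hj1).2
  have hle : ∀ j, ge v (v.ord (Z j1)) (Z j) := by
    intro j
    by_cases h0 : Z j = 0
    · exact Or.inl h0
    · exact Or.inr (hj1' j (Finset.mem_filter.2 ⟨Finset.mem_univ _, h0⟩))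
  have hord : ∀ j, Z j ≠ 0 → v.ord (z' j) = -(v.ord (Z j0)) + v.ord (Z j) := by
    intro j hj
    rw [hz']
    change v.ord ((Z j0)⁻¹ * Z j) = _
    rw [v.ord_mul' (inv_ne_zero hZ0') hj, v.ord_inv]
  have hpole : (poleOrder v z' : ℤ) = v.ord (Z j0) - v.ord (Z j1) := by
    have h0 := (hle j0).resolve_left hZ0'
    have hub : poleOrder v z' ≤ (v.ord (Z j0) - v.ord (Z j1)).toNat := by
      unfold poleOrder
      refine Finset.sup_le fun j _ => ?_
      by_cases hj : Z j = 0
      · have h1 : z' j = 0 := by rw [hz']; simp [hj]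
        rw [h1, v.ord_zero]
        simp
      · have h1 := hord j hj
        have h2 := (hle j).resolve_left hj
        omega
    have hlb : (-(v.ord (z' j1))).toNat ≤ poleOrder v z' :=
      Finset.le_sup (f := fun i => (-(v.ord (z' i))).toNat) (Finset.mem_univ j1)
    have h3 := hord j1 hj1
    omega
  obtain ⟨n, hn⟩ : ∃ n, Fintype.card τ = n + 1 :=
    ⟨Fintype.card τ - 1, (Nat.succ_pred_eq_of_pos (Fintype.card_pos_iff.2 ⟨j0⟩)).symm⟩
  let eq : Fin (n + 1) ≃ τ := (Fintype.equivFinOfCardEq hn).symm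
  have hPD : PullDiv m d P (fun i => φ (eq i)) (aeval φ G) := by
    refine ⟨(∏ a, J a ^ ε a) ⊔ P, le_sup_right, ?_, prod_le J ε m hε P⟩
    have hr : Set.range (fun i => φ (eq i)) = Set.range φ := eq.surjective.range_comp φ
    rw [hr, hunit, Ideal.mul_sup, sup_assoc, sup_eq_right.2 (Ideal.mul_le_right (I := Ideal.span (Set.range φ) ^ d) (J := P))]
  have hj1e : eq (eq.symm j1) = j1 := eq.apply_symm_apply j1
  have hpo := pull_ord v m d P (fun i => φ (eq i)) (aeval φ G) z hPD hzv hPz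
    (by rw [hcomp]; exact hGz) (v.ord (Z j1)) (fun j => by rw [← hZ]; exact hle _) (eq.symm j1)
    (by rw [hj1e, ← hZ]; exact hj1) (by rw [hj1e, ← hZ])
  rw [hcomp] at hpo
  rw [hform G d hG, v.ord_mul' (hinv _) hGz, v.ord_pow, v.ord_inv, hpole]
  rcases hpo with h | h
  · left
    have h3 : v.ord (aeval Z G) = (d : ℤ) * v.ord (Z j1) := by linarith
    rw [h3]
    ring
  · right
    have h4 : (m : ℤ) - d * (v.ord (Z j0) - v.ord (Z j1)) =
        (d : ℤ) * -v.ord (Z j0) + (m + d * v.ord (Z j1)) := by ring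
    rw [h4]
    linarith

end Pool.Agent.H77.SF
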