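import Pool.Agent.H84.SF.Fin
import Pool.Agent.H10.SM.PRM
import Pool.Agent.H16.SM.EXT

/-!
# MP_70ba79_ag, THEOREM S, chapter 14, row PRZ: restriction to the field generated by the
coordinates
-/

set_option autoImplicit false

namespace Pool.Agent.H77.SF

open MvPolynomial SC
open Pool.Agent.H84.SF
open Pool.Agent.H27.LV (ge deg poleOrder canDeg DegreeBound)
open Pool.Agent.H84.SM (cr dt dp)
open Pool.Agent.H84.SL (pd)
open Pool.Agent.H3.SF (Itg Bb BB Hm eu grd hes Sfc Crd Crf Prm)
open Pool.Agent.H17.SD (Prj Smo HRel)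
open Pool.Agent.H10.SM (der_adjoin der_alg alg_adjoin der_ne place_inj mem_range_of_alg)

section

variable {k K0 K : Type} [Field k] [Field K0] [Algebra k K0] [Field K] [Algebra k K]

theorem pole_ext (ι : K0 →ₐ[k] K) (w : DV k K0) (v : DV k K) (e : ℕ)
    (h : ∀ z, v.ord (ι z) = e * w.ord z) {τ : Type} [Fintype τ] [Nonempty τ] (x0 : τ → K0)
    (x : τ → K)
    (hx : ∀ i, ι (x0 i) = x i) : poleOrder v x = e * poleOrder w x0 := by
  have h1 : ∀ i, (-(v.ord (x i))).toNat = e * (-(w.ord (x0 i))).toNat := by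
    intro i
    rw [← hx, h]
    rcases le_total 0 (-(w.ord (x0 i))) with h2 | h2
    · obtain ⟨m, hm⟩ := Int.eq_ofNat_of_zero_le h2
      have h3 : -((e : ℤ) * w.ord (x0 i)) = ((e * m : ℕ) : ℤ) := by
        rw [Nat.cast_mul, ← hm]
        ring
      rw [h3, hm, Int.toNat_natCast, Int.toNat_natCast]
    · have h3 : -((e : ℤ) * w.ord (x0 i)) ≤ 0 := by
        have : 0 ≤ w.ord (x0 i) := by omega
        have := mul_nonneg (Int.natCast_nonneg e) this
        omega
      rw [Int.toNat_of_nonpos h3, Int.toNat_of_nonpos h2, mul_zero]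
  unfold poleOrder
  simp_rw [h1]
  rcases Nat.eq_zero_or_pos e with he | he
  · subst he
    simp
  apply le_antisymm
  · apply Finset.sup_le
    intro i _
    exact Nat.mul_le_mul_left e (Finset.le_sup (f := fun i => (-(w.ord (x0 i))).toNat)
      (Finset.mem_univ i))
  · obtain ⟨i, _, hi⟩ := Finset.exists_mem_eq_sup (Finset.univ : Finset τ)
      Finset.univ_nonempty (fun i => (-(w.ord (x0 i))).toNat)
    rw [hi]
    exact Finset.le_sup (f := fun i => e * (-(w.ord (x0 i))).toNat) (Finset.mem_univ i)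

end

/-- the derivation of the field generated by the coordinates -/
theorem exists_D0 {k K : Type} [Field k] [CharZero k] [Field K] [Algebra k K]
    (htr : Algebra.trdeg k K = 1) (D : Derivation k K K) {τ : Type} (x : τ → K) (i0 : τ)
    (hxt : Transcendental k (x i0)) (hμ : D (x i0) ≠ 0) (F : IntermediateField k K)
    (hF : F = IntermediateField.adjoin k (Set.range x)) :
    ∃ D0 : Derivation k F F, ∀ z : F, D (z : K) = D (x i0) * (D0 z : K) := by
  have hxF : ∀ i, x i ∈ F := fun i => by
    rw [hF]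
    exact IntermediateField.subset_adjoin _ _ ⟨i, rfl⟩
  let D1 : Derivation k K K := (D (x i0))⁻¹ • D
  have hD1 : ∀ z, D1 z = (D (x i0))⁻¹ * D z := fun z => rfl
  have hal := alg_adjoin htr (x i0) hxt
  let E := IntermediateField.adjoin k {x i0}
  have hE1 : ∀ y ∈ E, y ∈ F ∧ D1 y ∈ F := by
    apply der_adjoin D1 {x i0} F
    · intro y hy
      rw [Set.mem_singleton_iff.1 hy]
      exact hxF i0
    · intro y hy
      rw [Set.mem_singleton_iff.1 hy, hD1, inv_mul_cancel₀ hμ]
      exact F.one_mem
  have hstab : ∀ y ∈ F, D1 y ∈ F := by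
    intro y hy
    have h1 := der_adjoin D1 (Set.range x) F
      (by rintro _ ⟨i, rfl⟩; exact hxF i)
      (by
        rintro _ ⟨i, rfl⟩
        exact der_alg D1 E F (fun y hy => (hE1 y hy).1) (fun y hy => (hE1 y hy).2) (x i) (hxF i)
          (hal.isAlgebraic (x i)).isIntegral)
    exact (h1 y (hF ▸ hy)).2
  let D0 : Derivation k F F := Derivation.mk'
    { toFun := fun z => ⟨D1 (z : K), hstab _ z.2⟩
      map_add' := fun y z => Subtype.ext (D1.map_add y z)
      map_smul' := fun c z => Subtype.ext (D1.map_smul c z) }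
    (fun y z => Subtype.ext (D1.leibniz y z))
  refine ⟨D0, fun z => ?_⟩
  have h1 : ((D0 z : F) : K) = (D (x i0))⁻¹ * D (z : K) := rfl
  rw [h1, mul_inv_cancel_left₀ hμ]

theorem pf_PRZ : T_PRZ := by
  intro k τ _ _ _ _ I G d hG K _ _ _ htr D hD x S hx
  classical
  have hEXT := Pool.Agent.H16.SM.pf_EXT
  have : Nonempty τ := by
    obtain ⟨j, _⟩ := hx.one
    exact ⟨j⟩
  by_cases hc : ∀ i, x i ∈ Set.range (algebraMap k K)
  · exact Or.inl hc
  right
  push Not at hc
  obtain ⟨i0, hi0⟩ := hc
  have hxt : Transcendental k (x i0) := fun ha => hi0 (mem_range_of_alg ha)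
  have hμ : D (x i0) ≠ 0 := der_ne htr (x i0) hxt D hD
  let F := IntermediateField.adjoin k (Set.range x)
  have hxF : ∀ i, x i ∈ F := fun i => IntermediateField.subset_adjoin _ _ ⟨i, rfl⟩
  obtain ⟨D0, hD0⟩ := exists_D0 htr D x i0 hxt hμ F rfl
  have hess : Algebra.EssFiniteType k F := by
    rw [IntermediateField.essFiniteType_iff]
    exact ⟨(Set.finite_range x).toFinset, by rw [Set.Finite.coe_toFinset]⟩
  let x0 : τ → F := fun i => ⟨x i, hxF i⟩
  have hιx : ∀ i, F.val (x0 i) = x i := fun i => rfl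
  have htrF : Algebra.trdeg k F = 1 := by
    apply le_antisymm
    · rw [← htr]
      exact trdeg_le_of_injective F.val F.val.injective
    · rw [Cardinal.one_le_iff_ne_zero, trdeg_ne_zero_iff]
      refine ⟨⟨⟨x i0, hxF i0⟩, ?_⟩⟩
      intro halg
      exact hxt (halg.algebraMap (A := K))
  have hval : ∀ P : MvPolynomial (τ) k, F.val (aeval x0 P) = aeval x P := by
    intro P
    rw [← AlgHom.comp_apply, MvPolynomial.comp_aeval]
    rfl
  -- places
  have hE := hEXT k F K F.val htrF htr
  choose v e he hve using hE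
  have hpole : ∀ w, poleOrder (v w) x = e w * poleOrder w x0 := fun w =>
    pole_ext F.val w (v w) (e w) (hve w) x0 x hιx
  let T : Set (DV k F) := {w | w.ord (aeval x0 G) ≠ -(d * poleOrder w x0)}
  have hmem : ∀ w ∈ T, v w ∈ S := by
    intro w hw
    by_contra hvS
    apply hw
    have h1 := hx.off (v w) hvS
    rw [← hval, hve, hpole] at h1
    have h2 : (e w : ℤ) ≠ 0 := by
      have := he w
      omega
    apply mul_left_cancel₀ h2
    rw [h1]
    push_cast
    ring
  have hinj : Function.Injective v := by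
    intro w w' hww
    refine place_inj F.val w w' (v w) (e w) (e w') (he w) (he w') (hve w) ?_
    rw [hww]
    exact hve w'
  have hTfin : T.Finite := Set.Finite.of_injOn (f := v) (t := (S : Set (DV k K)))
    (fun w hw => hmem w hw) hinj.injOn S.finite_toSet
  refine ⟨F, inferInstance, inferInstance, hess, F.val, x0, D0, D (x i0), hTfin.toFinset,
    htrF, ?_, hιx, ?_, hμ, hD0, ⟨?_, ?_, ?_, ?_⟩, ?_⟩
  · intro h0
    have h1 := hD0 (x0 i0)
    rw [h0] at h1
    apply hμ
    have h2 : ((0 : Derivation k F F) (x0 i0) : K) = 0 := rfl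
    rw [h2, mul_zero] at h1
    exact h1
  · apply IntermediateField.lift_injective F
    rw [IntermediateField.lift_adjoin, IntermediateField.lift_top, ← Set.range_comp]
    rfl
  · intro f hf
    have h1 := hval f
    rw [hx.on f hf] at h1
    exact Subtype.ext h1
  · obtain ⟨j, hj⟩ := hx.one
    exact ⟨j, Subtype.ext hj⟩
  · intro h0
    apply hx.ne
    rw [← hval, h0, map_zero]
  · intro w hw
    by_contra h1
    exact hw (hTfin.mem_toFinset.2 h1)
  · refine Finset.card_le_card_of_injOn v ?_ hinj.injOn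
    intro w hw
    exact hmem w (hTfin.mem_toFinset.1 hw)

end Pool.Agent.H77.SF
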