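import Pool.Agent.H68.SF.LT
import Pool.Agent.H9.SF.WDefs

/-! Part K (large cardinals, small elementary embeddings): definitions and exact targets. -/

open Ordinal Cardinal Order Set
open scoped ZFSet

namespace SF

/-- `N` is an elementary submodel of the universe -/
def ElV (N : V) : Prop := ∀ (φ : Fml) (v : ℕ → V), (∀ i, v i ∈ N) →
  (Sat (· ∈ N) φ v ↔ Sat Al φ v)

/-- models of `ZF⁻` which are closed under (real) power sets -/
def KPw (M : V → Prop) : Prop := ZFm M ∧ ∀ x, M x → M (ZFSet.powerset x)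

/-- a normal ultrafilter on `P_κ(N)`, as an ultrafilter on the class of all sets -/
structure PkU (κ : Cardinal.{0}) (N : V) (W : Ultrafilter V) : Prop where
  sub : ∀ᶠ Y in (W : Filter V), Y ⊆ N
  small : ∀ᶠ Y in (W : Filter V), Y.card < κ
  fine : ∀ x ∈ N, ∀ᶠ Y in (W : Filter V), x ∈ Y
  comp : ∀ (I : Type) (P : I → V → Prop), #I < κ → (∀ i, ∀ᶠ Y in (W : Filter V), P i Y) →
    ∀ᶠ Y in (W : Filter V), ∀ i, P i Y
  norm : ∀ f : V → V, (∀ᶠ Y in (W : Filter V), f Y ∈ Y) →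
    ∃ t ∈ N, ∀ᶠ Y in (W : Filter V), f Y = t

/-- a small elementary embedding with critical point `κ'` and target `κ` -/
structure SEmb (κ' κ : Cardinal.{0}) (lam' lam : Ordinal.{0}) (j : V) : Prop where
  inac' : κ'.IsInaccessible
  inac : κ.IsInaccessible
  lt : κ' < κ
  lim' : IsSuccLimit lam'
  lim : IsSuccLimit lam
  lt' : κ'.ord < lam'
  ltk : lam' < κ.ord
  ltl : κ.ord < lam
  elV : ElV (V_ lam)
  el : IsElem (V_ lam') (V_ lam) j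
  fix : ∀ x ∈ V_ κ'.ord, app j x = x
  crit : app j κ'.ord.toZFSet = κ.ord.toZFSet
  back : ∀ x ∈ V_ lam', app j x ∈ V_ κ.ord → x ∈ V_ κ'.ord

/-! ### reflection -/

/-- Levy reflection: there are arbitrarily high elementary levels -/
def T_KA : Prop := ∀ α : Ordinal.{0}, ∃ lam, α < lam ∧ IsSuccLimit lam ∧ ElV (V_ lam)

/-- elementary levels satisfy `ZFC` -/
def T_KB : Prop := ∀ lam : Ordinal.{0}, IsSuccLimit lam → ElV (V_ lam) → ZFC (· ∈ V_ lam)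

/-! ### normal ultrafilters -/

/-- normal ultrafilters from supercompactness -/
def T_KC : Prop := ∀ κ : Cardinal.{0}, Supercompact κ → ∀ N : V, ∃ W, PkU κ N W

/-- diagonal intersections, for sequences -/
def T_KD : Prop := ∀ (κ : Cardinal.{0}) (N : V) (W : Ultrafilter V), ℵ₀ < κ → PkU κ N W →
  ∀ P : (ℕ → V) → V → Prop,
    (∀ t : ℕ → V, (∀ i, t i ∈ N) → ∀ᶠ Y in (W : Filter V), P t Y) →
    ∀ᶠ Y in (W : Filter V), ∀ t : ℕ → V, (∀ i, t i ∈ Y) → P t Y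

/-- supercompact cardinals are inaccessible -/
def T_KI : Prop := ∀ κ : Cardinal.{0}, Supercompact κ → κ.IsInaccessible

/-- almost all sets are elementary submodels -/
def T_KE : Prop := ∀ (κ : Cardinal.{0}) (N : V) (W : Ultrafilter V), ℵ₀ < κ → PkU κ N W →
  N.Nonempty → ∀ᶠ Y in (W : Filter V), ElSub Y N

/-- small elements are subsets -/
def T_KF : Prop := ∀ (κ : Cardinal.{0}) (N : V) (W : Ultrafilter V), ℵ₀ < κ → PkU κ N W →
  N.IsTransitive → ∀ᶠ Y in (W : Filter V), ∀ x ∈ Y, x.card < κ → x ⊆ Y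

/-- all subsets are traces -/
def T_KG : Prop := ∀ (κ : Cardinal.{0}) (N : V) (W : Ultrafilter V), ℵ₀ < κ → PkU κ N W →
  (∀ x ∈ N, ∀ y, y ⊆ x → y ∈ N) → ∀ᶠ Y in (W : Filter V), ∀ z ∈ Y, ∀ y, y ⊆ z →
    ∃ t ∈ Y, t ⊆ z ∧ ∀ v ∈ Y, v ∈ t ↔ v ∈ y

/-- the collapse is a level of the cumulative hierarchy -/
def T_KH : Prop := ∀ (lam : Ordinal.{0}) (Y : V), IsSuccLimit lam → ElSub Y (V_ lam) →
  Y.Nonempty → (∀ z ∈ Y, ∀ y, y ⊆ z → ∃ t ∈ Y, t ⊆ z ∧ ∀ v ∈ Y, v ∈ t ↔ v ∈ y) →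
  (∀ x ∈ Y, V_ x.rank ∈ Y ∧ ({x} : V) ∈ Y) →
  (∀ u ∈ Y, ∀ x ∈ Y, u ∈ V_ x.rank → ∃ y ∈ Y, y ∈ x ∧ u ⊆ V_ y.rank) →
  ∃ (lam' : Ordinal.{0}) (f : V), IsSuccLimit lam' ∧ IsElem (V_ lam') (V_ lam) f ∧
    (∀ y, y ∈ Y ↔ ∃ u ∈ V_ lam', app f u = y) ∧ (V_ lam').card = Y.card ∧
    ∀ t : V, t.IsTransitive → t ⊆ Y → ∀ u ∈ t, u ∈ V_ lam' ∧ app f u = u

/-- the critical point -/
def T_KJ : Prop := ∀ (κ : Cardinal.{0}) (Y : V), κ.IsInaccessible → Y.card < κ →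
  (∀ x ∈ Y, x.card < κ → x ⊆ Y) → (∅ : V) ∈ Y →
  (∀ x ∈ Y, V_ x.rank ∈ Y ∧ (Order.succ x.rank).toZFSet ∈ Y) →
  ∃ k : Ordinal.{0}, k < κ.ord ∧ IsSuccLimit k ∧
    (∀ α : Ordinal.{0}, α < k ↔ α < κ.ord ∧ α.toZFSet ∈ Y) ∧
    V_ k ⊆ Y ∧ ∀ x ∈ Y, x ∈ V_ κ.ord → x ∈ V_ k

/-- the critical point is inaccessible -/
def T_KK : Prop := ∀ (κ : Cardinal.{0}) (N : V) (W : Ultrafilter V), κ.IsInaccessible →
  PkU κ N W → (∀ α < κ.ord, α.toZFSet ∈ N) → ∀ᶠ Y in (W : Filter V), ∀ k : Ordinal.{0},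
    (∀ α : Ordinal.{0}, α < k ↔ α < κ.ord ∧ α.toZFSet ∈ Y) →
    ∃ μ : Cardinal.{0}, μ.IsInaccessible ∧ μ.ord = k

/-- small embeddings -/
def T_KL : Prop := ∀ κ : Cardinal.{0}, Supercompact κ → ∀ a : V,
  ∃ κ' lam' lam j, SEmb κ' κ lam' lam j ∧ ∃ a' ∈ V_ lam', app j a' = a

/-! ### preservation -/

/-- the models which occur -/
def T_KM : Prop := ∀ (κ' κ : Cardinal.{0}) (lam' lam : Ordinal.{0}) (j : V),
  SEmb κ' κ lam' lam j → KPw (· ∈ V_ lam') ∧ KPw (· ∈ V_ lam) ∧ KPw Al ∧ ZFC (· ∈ V_ lam') ∧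
    ZFC (· ∈ V_ lam)

/-- absolute relations are preserved -/
def T_KN : Prop := ∀ (κ' κ : Cardinal.{0}) (lam' lam : Ordinal.{0}) (j : V),
  SEmb κ' κ lam' lam j → ∀ R : (ℕ → V) → Prop, Dfb KPw (fun _ v => R v) →
  ∀ v : ℕ → V, (∀ i, v i ∈ V_ lam') → (R v ↔ R fun i => app j (v i))

/-- absolute functions are preserved -/
def T_KO : Prop := ∀ (κ' κ : Cardinal.{0}) (lam' lam : Ordinal.{0}) (j : V),
  SEmb κ' κ lam' lam j → ∀ F : (ℕ → V) → V, Tm KPw (fun _ v => F v) →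
  ∀ v : ℕ → V, (∀ i, v i ∈ V_ lam') → F v ∈ V_ lam' ∧ app j (F v) = F fun i => app j (v i)

/-- the power set is a definable function -/
def T_KQ : Prop := Tm KPw (fun _ v => ZFSet.powerset (v 0))

/-- complete Boolean algebras are absolute -/
def T_KR : Prop := Dfb KPw (fun _ v => IsCBA (v 0))

/-- `g` is the graph of a morphism from `B` to `C` -/
def IsMorS (B C g : V) : Prop := ∃ (_ : IsCBA B) (_ : IsCBA C) (h : Mor B C), h.gr = g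

/-- morphisms are absolute -/
def T_KS : Prop := Dfb KPw (fun _ v => IsMorS (v 0) (v 1) (v 2))

end SF
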