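import Pool.Agent.H77.SF.KT
import Pool.Agent.H45.SF.RT
import Pool.Agent.H72.SF.YT

/-! Part K, second list: reflection of goodness along small embeddings. Definitions and exact
targets. -/

open Ordinal Cardinal Order Set
open scoped ZFSet

namespace SF

/-- models of `ZF⁻` which are closed under (real) power sets and contain `ω₁` -/
def KPx (M : V → Prop) : Prop := KPw M ∧ M w1

/-! ### nice pairs -/

/-- fullness of countable sets is absolute -/
def T_KUL : Prop := ∀ M : V → Prop, KPx M → ∀ N' : V, M N' → (N' : Set V).Countable →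
  Full (fun _ => True) N' → Full M N'

/-- nice pairs are nice pairs in the small model -/
def T_KPR : Prop := ∀ (κ' κ : Cardinal.{0}) (lam' lam : Ordinal.{0}) (j : V),
  SEmb κ' κ lam' lam j → ∀ N' ∈ V_ lam', ∀ N ∈ V_ lam', NPr Al N' N → NPr (· ∈ V_ lam') N' N

/-! ### Löwenheim–Skolem for frames -/

/-- composition of a map with values in an algebra with the inverse of an elementary map -/
noncomputable def pullM {B : V} [IsCBA B] (N0 f : V) (σ : V → V → El B) (x z : V) : El B :=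
  open Classical in if z ∈ N0 then σ x (app f z) else ⊥

/-- composition of a map with values in an algebra with an elementary map -/
noncomputable def pushM {B : V} [IsCBA B] (N0 f : V) (τ : V → V → El B) (x y : V) : El B :=
  sSup {a | ∃ z ∈ N0, app f z = y ∧ τ x z = a}

/-- composition with elementary maps -/
def T_KVA : Prop := ∀ (B : V) [IsCBA B] (N' N N0 f : V) (b : El B), IsElem N0 N f →
  (∀ z ∈ N0, ∀ z2 ∈ N0, app f z = app f z2 → z = z2) ∧
  (∀ σ : V → V → El B, BMap N' N b σ → (∀ x y, σ x y ≠ ⊥ → ∃ z ∈ N0, app f z = y) →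
    BMap N' N0 b (pullM N0 f σ)) ∧
  ∀ τ : V → V → El B, BMap N' N0 b τ → BMap N' N b (pushM N0 f τ)

/-- small frames -/
def T_KVB : Prop := ∀ (A C : BA) (h : BMor A C) (p : V) (F : Frame h p) (t : V),
  t.IsTransitive → A.B ∈ t → C.B ∈ t → h.gr ∈ t → p ∈ t → w1 ∈ t →
    ∃ F0 : Frame h p, F0.N.card ≤ t.card ∧ F0.N' = F.N' ∧
      ∀ q ∈ F.N', (∃ c σ', IsLift F0 q c σ') → ∃ c σ', IsLift F q c σ'

/-- small transitive sets are elements -/
def T_KVC : Prop := ∀ (κ' κ : Cardinal.{0}) (lam' lam : Ordinal.{0}) (j : V),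
  SEmb κ' κ lam' lam j → ∀ t ∈ V_ lam', ∀ N0 : V, N0.IsTransitive → N0.card ≤ t.card →
    N0 ∈ V_ lam'

/-- codes of small frames are elements -/
def T_KVD : Prop := ∀ (κ' κ : Cardinal.{0}) (lam' lam : Ordinal.{0}) (j : V),
  SEmb κ' κ lam' lam j → ∀ (A C : BA) (h : BMor A C) (p : V) (F : Frame h p), A.B ∈ V_ lam' →
    F.N ∈ V_ lam' → F.N' ∈ V_ lam' ∧ F.b.val ∈ V_ lam' ∧ cS F.N' F.N F.σ ∈ V_ lam' ∧
      F.w ∈ V_ lam' ∧ F.B' ∈ V_ lam' ∧ F.C' ∈ V_ lam' ∧ F.h' ∈ V_ lam' ∧ F.p' ∈ V_ lam' ∧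
      F.G' ∈ V_ lam'

/-! ### inaccessible cardinals, regular open algebras -/

/-- inaccessible cardinals -/
def T_KV : Prop := ∀ κ : Cardinal.{0}, κ.IsInaccessible → Inac κ.ord

/-- the regular open algebra of a preorder which is a set -/
noncomputable def roS (P L : V) : V := RO P fun x y => ZFSet.pair x y ∈ L

/-- the regular open set generated by `p` -/
noncomputable def clS (P L p : V) : V := cl P (fun x y => ZFSet.pair x y ∈ L) p

/-- definability of the regular open algebra; the algebra of the category forcing -/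
def T_KRO : Prop := Tm KPw (fun _ v => roS (v 0) (v 1)) ∧
  Tm KPw (fun _ v => clS (v 0) (v 1) (v 2)) ∧
  ∀ κ : Ordinal.{0}, RO (UU κ) leU = roS (UU κ) (UL κ) ∧
    ∀ u ∈ UU κ, cl (UU κ) leU u = clS (UU κ) (UL κ) u

/-- the preimage of the category forcing -/
def T_KZA : Prop := ∀ (κ' κ : Cardinal.{0}) (lam' lam : Ordinal.{0}) (j : V),
  SEmb κ' κ lam' lam j →
  (∀ u ∈ V_ lam', app j u = UU κ.ord → u = UU κ'.ord) ∧
  ∀ u ∈ V_ lam', app j u = UL κ.ord → u = UL κ'.ord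

/-- the preimage of the algebra of the category forcing -/
def T_KZB : Prop := ∀ (κ' κ : Cardinal.{0}) (lam' lam : Ordinal.{0}) (j : V),
  SEmb κ' κ lam' lam j → UU κ'.ord ∈ V_ lam' → app j (UU κ'.ord) = UU κ.ord →
  UL κ'.ord ∈ V_ lam' → app j (UL κ'.ord) = UL κ.ord →
  ∀ (Z : BA) (i : ∀ v : Obj, BMor v.A Z) (Z' : BA) (i' : ∀ v : Obj, BMor v.A Z'),
    CU κ.ord Z i → CU κ'.ord Z' i' →
    Z'.B ∈ V_ lam' ∧ app j Z'.B = Z.B ∧ Z'.g.gr ∈ V_ lam' ∧ app j Z'.g.gr = Z.g.gr ∧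
      ∀ x ∈ Z'.B, x ⊆ V_ κ'.ord

/-! ### algebras over the base algebra -/

/-- the values of acceptance -/
def T_KGA : Prop := ∀ (κ' κ : Cardinal.{0}) (lam' lam : Ordinal.{0}) (j : V),
  SEmb κ' κ lam' lam j → ∀ A' A : BA, A'.g.gr ∈ V_ lam' → app j A'.g.gr = A.g.gr →
    gaf A' ∈ V_ lam' ∧ app j (gaf A') = gaf A

/-- existence of preimages of algebras and morphisms -/
def T_KXB : Prop := ∀ (κ' κ : Cardinal.{0}) (lam' lam : Ordinal.{0}) (j : V),
  SEmb κ' κ lam' lam j →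
  (∀ A : BA, ∀ B' ∈ V_ lam', ∀ g' ∈ V_ lam', app j B' = A.B → app j g' = A.g.gr →
    ∃ A' : BA, A'.B = B' ∧ A'.g.gr = g') ∧
  ∀ (A' C' A C : BA) (h : BMor A C), ∀ h0 ∈ V_ lam', A'.B ∈ V_ lam' → A'.g.gr ∈ V_ lam' →
    C'.B ∈ V_ lam' → C'.g.gr ∈ V_ lam' → app j A'.B = A.B → app j A'.g.gr = A.g.gr →
    app j C'.B = C.B → app j C'.g.gr = C.g.gr → app j h0 = h.gr →
    ∃ h' : BMor A' C', h'.gr = h0

/-- goodness is reflected -/
def T_KXG : Prop := ∀ (κ' κ : Cardinal.{0}) (lam' lam : Ordinal.{0}) (j : V),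
  SEmb κ' κ lam' lam j → ∀ (A' C' A C : BA) (h' : BMor A' C') (h : BMor A C),
    A'.B ∈ V_ lam' → A'.g.gr ∈ V_ lam' → C'.B ∈ V_ lam' → h'.gr ∈ V_ lam' →
    app j A'.B = A.B → app j A'.g.gr = A.g.gr → app j C'.B = C.B → app j h'.gr = h.gr →
    Good h → Good h'

end SF
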